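import Pool.Agent.H17.VG.TargetsG
import Pool.Agent.H27.LV.Curve

/-!
# MP_70ba79_ag: derivations which vanish on the coefficients are multiples of `D`
-/

set_option autoImplicit false

namespace Pool.Agent.H51.VG

open MvPolynomial SC Pool.Agent.H27.LV Pool.Agent.H17.VG

/-- A derivation that vanishes on a subfield over which the field is algebraic vanishes. -/
lemma vanish {R k K : Type} [Field R] [Field k] [CharZero k] [Field K] [Algebra R k] [Algebra k K]
    (F0 : IntermediateField R k) [Algebra.IsAlgebraic F0 k] (δ : k → K)
    (hadd : ∀ a b, δ (a + b) = δ a + δ b) (hmul : ∀ a b, δ (a * b) = a • δ b + b • δ a)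
    (h0 : ∀ a ∈ F0, δ a = 0) (a : k) : δ a = 0 := by
  let d : Derivation F0 k K := Derivation.mk'
    { toFun := δ
      map_add' := hadd
      map_smul' := by
        intro f b
        have h1 : f • b = (f : k) * b := rfl
        rw [h1, hmul, h0 f f.2, smul_zero, add_zero]
        rfl } hmul
  have : CharZero F0 := ⟨fun m n h => by
    have := congrArg (fun z : F0 => (z : k)) h
    simpa using this⟩
  have : Algebra.IsSeparable F0 k := inferInstance
  have : Algebra.FormallyUnramified F0 k := Algebra.FormallyUnramified.of_isSeparable F0 k
  have h1 : d.liftKaehlerDifferential.compDer (KaehlerDifferential.D F0 k) = d :=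
    d.liftKaehlerDifferential_comp
  have h2 : KaehlerDifferential.D F0 k a = 0 := Subsingleton.elim _ _
  have h3 : d a = d.liftKaehlerDifferential (KaehlerDifferential.D F0 k a) :=
    (d.liftKaehlerDifferential_comp_D a).symm
  rw [h2, map_zero] at h3
  exact h3

theorem kd : T_KD := by
  intro k _ _ _ n d c R halg K _ _ _ htr D D' θ hD hD' hθ
  -- `θ` vanishes on `k`
  have hk : ∀ a : k, θ (algebraMap k K a) = 0 := by
    set δ : k → K := fun a => θ (algebraMap k K a) with hδ
    have hadd : ∀ a b, δ (a + b) = δ a + δ b := by
      intro a b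
      simp only [hδ, map_add]
    have hmul : ∀ a b, δ (a * b) = a • δ b + b • δ a := by
      intro a b
      simp only [hδ, map_mul, Derivation.leibniz, Algebra.smul_def, Algebra.algebraMap_self,
        RingHom.id_apply]
    refine vanish (IntermediateField.adjoin R
      (Set.range fun M : {M : Mon (n + 1) d // ¬ Wm M} => c M)) δ hadd hmul ?_
    intro a ha
    induction ha using IntermediateField.adjoin_induction with
    | mem x hx =>
      obtain ⟨M, rfl⟩ := hx
      exact hθ M
    | algebraMap x =>
      have h1 : algebraMap k K (algebraMap R k x) = algebraMap R K x :=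
        (IsScalarTower.algebraMap_apply R k K x).symm
      simp only [hδ, h1, Derivation.map_algebraMap]
    | add x y _ _ hx hy => rw [hadd, hx, hy, add_zero]
    | inv x _ hx =>
      by_cases h0 : x = 0
      · rw [h0, inv_zero, ← h0]; exact hx
      · have h1 : δ (x * x⁻¹) = 0 := by
          rw [mul_inv_cancel₀ h0]
          have := hmul 1 1
          rw [one_mul, one_smul] at this
          have h2 : δ 1 + δ 1 = δ 1 + 0 := by rw [add_zero]; exact this.symm
          exact add_left_cancel h2
        rw [hmul, hx, smul_zero, add_zero] at h1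
        exact (smul_eq_zero.1 h1).resolve_left h0
    | mul x y _ _ hx hy => rw [hmul, hx, hy, smul_zero, smul_zero, add_zero]
  -- `θ` is `k`-linear
  let θ0 : Derivation k K K := Derivation.mk'
    { toFun := θ
      map_add' := fun a b => map_add θ a b
      map_smul' := by
        intro a z
        rw [Algebra.smul_def, Derivation.leibniz, hk, smul_zero, add_zero, smul_eq_mul,
          RingHom.id_apply, Algebra.smul_def] } (fun a b => by
        change θ (a * b) = a • θ b + b • θ a
        exact θ.leibniz a b)
  have hθ0 : ∀ z, θ0 z = θ z := fun z => rfl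
  obtain ⟨t, ht⟩ : ∃ t, D t ≠ 0 := by
    by_contra hcon
    push Not at hcon
    exact hD (Derivation.ext hcon)
  have h1 : θ0 - (θ0 t / D t) • D = 0 := by
    by_contra hne
    obtain ⟨a, ha⟩ := ker k K htr _ hne t (by
      rw [Derivation.sub_apply, Derivation.smul_apply, smul_eq_mul, div_mul_cancel₀ _ ht, sub_self])
    apply ht
    rw [← ha]
    exact D.map_algebraMap a
  refine ⟨θ0 t / D t, ?_⟩
  ext z
  have h2 := congrArg (fun E : Derivation k K K => E z) (sub_eq_zero.1 h1)
  simp only [Derivation.smul_apply] at h2
  rw [Derivation.smul_apply, hD', ← hθ0]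
  exact h2

end Pool.Agent.H51.VG
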